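import Pool.Agent.N698.TP.Main
import Pool.Agent.N698.TP.Places
import Pool.Agent.Results.MP_71c16a_nt.AtMostTwoPlaces

set_option autoImplicit false

/-!
# When the term `ε h_A` can be dropped from Vojta's conjecture for hyperplanes

`k` is a number field, `X = ℙⁿ` with `n ≥ 1` arbitrary, `D` a sum of `q ≥ n + 2` hyperplanes over `k`
in general position, `S` a finite set of places of `k` which contains the archimedean ones.

1. Vojta's inequality for the points of degree at most `r` over `k` holds without the term `ε h_A`,
`h_K(x) + ∑_{ν ∈ S} λ_D(x, ν) ≤ d_k(x) + O(1)` outside of a proper closed subset, if and only if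
`r |S| ≤ 2`.

2. Let `L` be a finite extension of `k` and `s` the number of the places of `L` above `S`. If `s ≤ 2`,
the inequality holds for the points over `L`, outside of a finite set of hyperplanes, with an absolute
constant as error term (starting result `AtMostTwoPlaces`, with the same definitions; it gives one half of
1). We prove that for all other `L`, `s ≥ 3`, the error term is unbounded on the points of `ℙⁿ(L)`
outside of any proper closed subset of `ℙⁿ`, and that it is at least `(n (s - 2) / [L : k]) log h - O(1)`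
at every scale. On `ℙⁿ(L)` the logarithmic discriminant is bounded, so it does not matter.

Proof of 2. There are `≍ B ^ (s - 2)` `S`-units of height `O(B)` up to roots of unity which are units
at a given finite place `v₀` of `L` above `S`, so some of their quotients `t ≠ 1` are close to `1` at
`v₀`: `- log ‖t - 1‖ ≥ (s - 2) log B - O(1)`; if `S` has no finite places, the same is true for a real
or complex place `v₀`, by the pigeonhole principle for the logarithms of the `≍ B ^ (s - 1)` units. The
point `x` has the coordinates `c_i t ^ (e_i)` with respect to `n + 1` of the hyperplanes, where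
`c_i = ∏_{j ≠ i} (e_i - e_j)⁻¹`, so that their sum, which is the value of one more linear form, is
divisible by `(t - 1) ^ n`; and where `e = (0, 1, b, b², …)` is lacunary, so that the curve is not
contained in a given hypersurface. For 1 there are fields of degree at most `r` with at least three
places above `S` if `r |S| ≥ 3`: quadratic and cubic extensions with two and three places above a
given archimedean place.
-/

namespace Pool.Agent.Results.MP_71c16a_nt.ThreePlaces

open NumberField IsDedekindDomain

/-- The value of the linear form with the coefficients `a` over `k` at a point over `L`. -/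
def value {k L : Type} [Field k] [Field L] [Algebra k L] {n : ℕ} (a : Fin (n + 1) → k)
    (x : Fin (n + 1) → L) : L := ∑ j, algebraMap k L (a j) * x j

/-- Hyperplanes in general position: any `n + 1` or fewer of the linear forms are linearly
independent. -/
def InGeneralPosition {k : Type} [Field k] {n q : ℕ} (H : Fin q → Fin (n + 1) → k) : Prop :=
  ∀ I : Finset (Fin q), I.card ≤ n + 1 → LinearIndependent k (fun i : I => H i)

/-- The logarithmic height relative to `k` of a point over `L`. -/
noncomputable def height (k : Type) {L : Type} [Field k] [Field L] [NumberField L] [Algebra k L]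
    {n : ℕ} (x : Fin (n + 1) → L) : ℝ := Height.logHeight x / Module.finrank k L

/-- The primes of `L` above the primes in `S`. -/
def primesAbove {k : Type} [Field k] [NumberField k] (S : Finset (HeightOneSpectrum (𝓞 k)))
    (L : Type) [Field L] [NumberField L] [Algebra k L] : Set (HeightOneSpectrum (𝓞 L)) :=
  {w | ∃ v ∈ S, w.asIdeal.LiesOver v.asIdeal}

/-- The number of the places of `L` above the archimedean places of `k` and the primes in `S`. -/
noncomputable def numberOfPlaces {k : Type} [Field k] [NumberField k]
    (S : Finset (HeightOneSpectrum (𝓞 k))) (L : Type) [Field L] [NumberField L] [Algebra k L] : ℕ :=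
  Fintype.card (InfinitePlace L) + (primesAbove S L).ncard

/-- The local height `∑ i, log (max_j |x_j| / |H_i(x)|)` of the divisor `D`, for an absolute value of
`L`. -/
noncomputable def weil {k L : Type} [Field k] [Field L] [Algebra k L] {n q : ℕ}
    (f : AbsoluteValue L ℝ) (H : Fin q → Fin (n + 1) → k) (x : Fin (n + 1) → L) : ℝ :=
  ∑ i, Real.log ((⨆ j, f (x j)) / f (value (H i) x))

/-- The proximity function `∑_{ν ∈ S} λ_D(x, ν)` relative to `k`, where `S` consists of the
archimedean places of `k` and the primes in `S`: the sum of the local heights over the infinite places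
`w` of `L` (with the factor `[L_w : ℝ]`) and over the primes of `L` above the primes in `S` (with the
absolute value `N(w) ^ (- ord_w)`), divided by `[L : k]`. -/
noncomputable def proximity {k L : Type} [Field k] [NumberField k] [Field L] [NumberField L]
    [Algebra k L] {n q : ℕ} (S : Finset (HeightOneSpectrum (𝓞 k))) (H : Fin q → Fin (n + 1) → k)
    (x : Fin (n + 1) → L) : ℝ :=
  (∑ w : InfinitePlace L, (w.mult : ℝ) * weil w.1 H x +
    ∑ᶠ w ∈ primesAbove S L, weil (FinitePlace.mk w).1 H x) / Module.finrank k L

/-- linear independence over an extension field -/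
theorem independent_over {k L : Type} [Field k] [Field L] [Algebra k L] {n : ℕ} {ι : Type}
    [Fintype ι] (hι : Fintype.card ι = n + 1) (H : ι → Fin (n + 1) → k)
    (h : LinearIndependent k H) : LinearIndependent L (fun i j => algebraMap k L (H i j)) := by
  classical
  obtain ⟨e⟩ : Nonempty (Fin (n + 1) ≃ ι) := ⟨(Fintype.equivFinOfCardEq hι).symm⟩
  have h1 : LinearIndependent k (fun i : Fin (n + 1) => H (e i)) := h.comp e e.injective
  have h2 : IsUnit (Matrix.of fun i : Fin (n + 1) => H (e i)) :=
    Matrix.linearIndependent_rows_iff_isUnit.1 h1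
  have h3 := (Matrix.isUnit_iff_isUnit_det _).1 h2
  have h4 : IsUnit ((Matrix.of fun i : Fin (n + 1) => H (e i)).map (algebraMap k L)) := by
    rw [Matrix.isUnit_iff_isUnit_det, ← RingHom.mapMatrix_apply, ← RingHom.map_det]
    exact h3.map _
  have h5 : LinearIndependent L (fun (i : Fin (n + 1)) j => algebraMap k L (H (e i) j)) :=
    Matrix.linearIndependent_rows_iff_isUnit.2 h4
  have h6 := h5.comp e.symm e.symm.injective
  convert! h6 using 2 with i
  simp

/-- the lower bound for the error term over a field `L` with at least three places above `S` -/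
theorem lowerBound (k : Type) [Field k] [NumberField k] (n q : ℕ) (hq : n + 2 ≤ q)
    (H : Fin q → Fin (n + 1) → k) (hH : InGeneralPosition H)
    (S : Finset (HeightOneSpectrum (𝓞 k))) (L : Type) [Field L] [NumberField L] [Algebra k L]
    (hs : 3 ≤ numberOfPlaces S L) (Ω : Type) [Field Ω] [Algebra L Ω] (d : ℕ)
    (G : MvPolynomial (Fin (n + 1)) Ω) (hG : G ≠ 0) (hGd : G.IsHomogeneous d) :
    ∃ C B₀ : ℝ, ∀ B : ℝ, B₀ ≤ B → ∃ x : Fin (n + 1) → L, x ≠ 0 ∧ (∀ i, value (H i) x ≠ 0) ∧
      MvPolynomial.eval (fun j => algebraMap L Ω (x j)) G ≠ 0 ∧ height k x ≤ B ∧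
      n * ((numberOfPlaces S L : ℝ) - 2) / Module.finrank k L * Real.log B - C ≤
        -(n + 1) * height k x + proximity S H x := by
  classical
  -- the places above `S`
  have hfin : (primesAbove S L).Finite := by
    have h1 : primesAbove S L ⊆ ⋃ v ∈ S, {w | w.asIdeal.LiesOver v.asIdeal} := by
      rintro w ⟨v, hv, hw⟩
      simp only [Set.mem_iUnion]
      exact ⟨v, hv, hw⟩
    refine (S.finite_toSet.biUnion fun v _ => ?_).subset h1
    have h2 : (Ideal.primesOver v.asIdeal (𝓞 L)).Finite :=
      IsDedekindDomain.primesOver_finite v.asIdeal (𝓞 L)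
    refine Set.Finite.of_finite_image (f := fun w : HeightOneSpectrum (𝓞 L) => w.asIdeal)
      (h2.subset ?_) (fun w _ w' _ h => HeightOneSpectrum.ext h)
    rintro _ ⟨w, hw, rfl⟩
    exact ⟨w.isPrime, hw⟩
  set W : Finset (HeightOneSpectrum (𝓞 L)) := hfin.toFinset with hW
  have hcard : Fintype.card (InfinitePlace L) + W.card = numberOfPlaces S L := by
    rw [numberOfPlaces, Set.ncard_eq_toFinset_card _ hfin]
  set a : Fin q → Fin (n + 1) → L := fun i j => algebraMap k L (H i j) with ha
  have hgp : ∀ I : Finset (Fin q), I.card = n + 1 → LinearIndependent L (fun i : I => a i) :=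
    fun I hI => independent_over (by rw [Fintype.card_coe, hI]) _ (hH I hI.le)
  obtain ⟨C, B0, h⟩ := Pool.Agent.N698.TP.lower W (by rw [hcard]; exact hs) hq a hgp G hG hGd
  rw [hcard] at h
  have hd : (0 : ℝ) < Module.finrank k L := by exact_mod_cast Module.finrank_pos
  have hd1 : (1 : ℝ) ≤ Module.finrank k L := by exact_mod_cast (Module.finrank_pos : 0 < _)
  refine ⟨C / Module.finrank k L, max B0 1, fun B hB => ?_⟩
  have hB1 : 1 ≤ B := (le_max_right _ _).trans hB
  have hB0 : B0 ≤ Module.finrank k L * B := by
    refine ((le_max_left _ _).trans hB).trans ?_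
    nlinarith
  obtain ⟨x, h1, h2, h3, h4, h5⟩ := h _ hB0
  refine ⟨x, h1, h2, h3, ?_, ?_⟩
  · unfold height
    rw [div_le_iff₀ hd]
    linarith
  · have hlog : Real.log B ≤ Real.log (Module.finrank k L * B) :=
      Real.log_le_log (by linarith) (by nlinarith)
    have hs' : (3 : ℝ) ≤ (numberOfPlaces S L : ℝ) := by exact_mod_cast hs
    have h6 := mul_le_mul_of_nonneg_left hlog
      (mul_nonneg (Nat.cast_nonneg n) (by linarith : 0 ≤ (numberOfPlaces S L : ℝ) - 2))
    have hprox : ∑ p : Pool.Agent.N698.TP.Pl W, Pool.Agent.N698.TP.wt p * ∑ i,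
        Real.log (Pool.Agent.N698.TP.nm (Pool.Agent.N698.TP.av p) x /
          Pool.Agent.N698.TP.av p (∑ j, a i j * x j)) =
        ∑ w : InfinitePlace L, (w.mult : ℝ) * weil w.1 H x +
          ∑ᶠ w ∈ primesAbove S L, weil (FinitePlace.mk w).1 H x := by
      rw [Pool.Agent.N698.TP.sum_pl W fun f => ∑ i, Real.log
        (Pool.Agent.N698.TP.nm f x / f (∑ j, a i j * x j))]
      congr 1
      rw [finsum_mem_eq_finite_toFinset_sum _ hfin]
      rfl
    rw [hprox] at h5
    unfold height proximity
    rw [div_mul_eq_mul_div, mul_div_assoc', ← add_div, ← sub_div, div_le_div_iff_of_pos_right hd]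
    linarith

/-- The logarithmic discriminant of `L` relative to `k`. -/
noncomputable def logDisc (k L : Type) [Field k] [NumberField k] [Field L] [NumberField L]
    [Algebra k L] : ℝ :=
  Real.log |(discr L : ℝ)| / Module.finrank k L - Real.log |(discr k : ℝ)|

/-- Vojta's inequality without `ε h_A` for the points of degree at most `r`: outside of a hypersurface
`G = 0` of `ℙⁿ` over `k` we have `h_K(x) + ∑_{ν ∈ S} λ_D(x, ν) ≤ d_k(L) + C` for all the points `x` of
`ℙⁿ` outside `D` over the extensions `L` of `k` with `[L : k] ≤ r`, where `h_K = - (n + 1) h` and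
`d_k(L)` is the logarithmic discriminant. (It is smallest for `L = k(x)`, and every proper closed
subset of `ℙⁿ` is contained in such a hypersurface.) -/
def BoundedError {k : Type} [Field k] [NumberField k] {n q : ℕ} (H : Fin q → Fin (n + 1) → k)
    (S : Finset (HeightOneSpectrum (𝓞 k))) (r : ℕ) : Prop :=
  ∃ (d : ℕ) (G : MvPolynomial (Fin (n + 1)) k), G ≠ 0 ∧ G.IsHomogeneous d ∧ ∃ C : ℝ,
    ∀ (L : Type) [Field L] [NumberField L] [Algebra k L] (x : Fin (n + 1) → L),
      Module.finrank k L ≤ r → x ≠ 0 → (∀ i, value (H i) x ≠ 0) → MvPolynomial.aeval x G ≠ 0 →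
      -(n + 1) * height k x + proximity S H x ≤ logDisc k L + C

theorem boundedError_of_le {k : Type} [Field k] [NumberField k] {n q : ℕ}
    {H : Fin q → Fin (n + 1) → k} (hH : InGeneralPosition H)
    {S : Finset (HeightOneSpectrum (𝓞 k))} {r : ℕ}
    (hr : r * (Fintype.card (InfinitePlace k) + S.card) ≤ 2) : BoundedError H S r := by
  classical
  obtain ⟨Z, hZ, C, hmain⟩ := AtMostTwoPlaces.result k n q H hH
  -- the product of the linear forms in `Z`
  set lin : (Fin (n + 1) → k) → MvPolynomial (Fin (n + 1)) k := fun m =>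
    ∑ j, MvPolynomial.C (m j) * MvPolynomial.X j with hlin
  have hlin_aeval : ∀ (L : Type) [Field L] [Algebra k L] (x : Fin (n + 1) → L)
      (m : Fin (n + 1) → k), MvPolynomial.aeval x (lin m) = value m x := by
    intro L _ _ x m
    rw [hlin, value, map_sum]
    refine Finset.sum_congr rfl fun j _ => ?_
    rw [map_mul, MvPolynomial.aeval_C, MvPolynomial.aeval_X]
  have hlin0 : ∀ m : Fin (n + 1) → k, m ≠ 0 → lin m ≠ 0 := by
    intro m hm h0
    obtain ⟨j, hj⟩ := Function.ne_iff.1 hm
    have h1 := hlin_aeval k (Pi.single j 1) m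
    rw [h0, map_zero, value] at h1
    apply hj
    simpa [Pi.single_apply] using h1.symm
  have hlinh : ∀ m : Fin (n + 1) → k, (lin m).IsHomogeneous 1 := by
    intro m
    refine MvPolynomial.IsHomogeneous.sum _ _ _ fun j _ => ?_
    have := (MvPolynomial.isHomogeneous_C (Fin (n + 1)) (m j)).mul
      (MvPolynomial.isHomogeneous_X k j)
    simpa using this
  refine ⟨∑ m ∈ Z, 1, ∏ m ∈ Z, lin m, Finset.prod_ne_zero_iff.2 fun m hm => hlin0 m (hZ m hm),
    MvPolynomial.IsHomogeneous.prod _ _ _ fun m _ => hlinh m, C + Real.log |(discr k : ℝ)|,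
    fun L _ _ _ x hL hx hHx hGx => ?_⟩
  rw [map_prod, Finset.prod_ne_zero_iff] at hGx
  have h1 := (hmain S L x hx hHx fun m hm => by
    have := hGx m hm
    rw [hlin_aeval L x m] at this
    exact this).1 (Pool.Agent.N698.TP.numPl_le_two S hr hL)
  have h2 : 0 ≤ Real.log |(discr L : ℝ)| / Module.finrank k L := by
    refine div_nonneg (Real.log_nonneg ?_) (Nat.cast_nonneg _)
    have h3 : (1 : ℤ) ≤ |discr L| := Int.one_le_abs (discr_ne_zero L)
    exact_mod_cast h3
  have h3 : -((n : ℝ) + 1) * height k x + proximity S H x ≤ C := h1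
  unfold logDisc
  linarith

theorem le_of_boundedError {k : Type} [Field k] [NumberField k] {n q : ℕ} (hn : 1 ≤ n)
    (hq : n + 2 ≤ q) {H : Fin q → Fin (n + 1) → k} (hH : InGeneralPosition H)
    {S : Finset (HeightOneSpectrum (𝓞 k))} {r : ℕ} (hB : BoundedError H S r) :
    r * (Fintype.card (InfinitePlace k) + S.card) ≤ 2 := by
  classical
  by_contra hr
  obtain ⟨L, _, _, _, hL, hs⟩ := Pool.Agent.N698.TP.exists_three S (r := r) (by omega)
  obtain ⟨d, G, hG, hGd, C, h⟩ := hB
  have hs' : 3 ≤ numberOfPlaces S L := hs
  obtain ⟨C', B₀, h'⟩ := lowerBound k n q hq H hH S L hs' L d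
    (MvPolynomial.map (algebraMap k L) G)
    (fun h0 => hG (MvPolynomial.map_injective _ (algebraMap k L).injective (by rw [h0, map_zero])))
    (hGd.map _)
  have hd : (0 : ℝ) < Module.finrank k L := by exact_mod_cast Module.finrank_pos
  have hs2 : (3 : ℝ) ≤ (numberOfPlaces S L : ℝ) := by exact_mod_cast hs'
  have hn' : (1 : ℝ) ≤ n := by exact_mod_cast hn
  set κ : ℝ := n * ((numberOfPlaces S L : ℝ) - 2) / Module.finrank k L with hκ
  have hκ0 : 0 < κ := div_pos (mul_pos (by linarith) (by linarith)) hd
  set B : ℝ := max B₀ (Real.exp ((logDisc k L + C + C' + 1) / κ)) with hBdef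
  obtain ⟨x, hx, hHx, hGx, -, h2⟩ := h' B (le_max_left _ _)
  have h3 := h L x hL hx hHx (by
    rw [MvPolynomial.eval_map] at hGx
    rwa [MvPolynomial.aeval_def])
  have h4 : (logDisc k L + C + C' + 1) / κ ≤ Real.log B := by
    rw [← Real.log_exp ((logDisc k L + C + C' + 1) / κ)]
    exact Real.log_le_log (Real.exp_pos _) (le_max_right _ _)
  rw [div_le_iff₀ hκ0] at h4
  linarith [mul_comm κ (Real.log B)]

/-- **The error term of Vojta's inequality for hyperplanes.** Let `n ≥ 1`, let `H_i` be `q ≥ n + 2`
linear forms over the number field `k` in general position in `n + 1` variables and `S` a finite set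
of primes of `k` (the archimedean places are always added).
1. Vojta's inequality for the points of degree at most `r` over `k` holds without the term `ε h_A` if
and only if `r |S| ≤ 2`, where `|S|` includes the archimedean places.
2. Let `L` be a finite extension of `k` such that the number `s` of the places of `L` above `S` is at
least three and let `G` be a nonzero form over an extension field of `L`. Then for all large `B` there
are points `x` of `ℙⁿ(L)` of height `h(x) ≤ B` outside `D` and outside `G = 0` with
`h_K(x) + ∑_{ν ∈ S} λ_D(x, ν) ≥ (n (s - 2) / [L : k]) log B - C`. -/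
theorem result (k : Type) [Field k] [NumberField k] (n q : ℕ) (hn : 1 ≤ n) (hq : n + 2 ≤ q)
    (H : Fin q → Fin (n + 1) → k) (hH : InGeneralPosition H)
    (S : Finset (HeightOneSpectrum (𝓞 k))) :
    (∀ r : ℕ, BoundedError H S r ↔ r * (Fintype.card (InfinitePlace k) + S.card) ≤ 2) ∧
    ∀ (L : Type) [Field L] [NumberField L] [Algebra k L], 3 ≤ numberOfPlaces S L →
      ∀ (Ω : Type) [Field Ω] [Algebra L Ω] (d : ℕ) (G : MvPolynomial (Fin (n + 1)) Ω), G ≠ 0 →
      G.IsHomogeneous d →
      ∃ C B₀ : ℝ, ∀ B : ℝ, B₀ ≤ B → ∃ x : Fin (n + 1) → L, x ≠ 0 ∧ (∀ i, value (H i) x ≠ 0) ∧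
        MvPolynomial.eval (fun j => algebraMap L Ω (x j)) G ≠ 0 ∧ height k x ≤ B ∧
        n * ((numberOfPlaces S L : ℝ) - 2) / Module.finrank k L * Real.log B - C ≤
          -(n + 1) * height k x + proximity S H x :=
  ⟨fun _ => ⟨le_of_boundedError hn hq hH, boundedError_of_le hH⟩,
    fun L _ _ _ hs Ω _ _ d G hG hGd => lowerBound k n q hq H hH S L hs Ω d G hG hGd⟩

end Pool.Agent.Results.MP_71c16a_nt.ThreePlaces
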